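import Pool.Agent.Helper487.Jack.Final14
import Pool.Agent.Helper487.Jack.Exist

open Finset MvPolynomial Helper487.Jack

namespace Pool.Agent.Results.MP_19b511_co.NonRealZero

/-!
# A non-real zero of `B_{μ,λ}` for `μ = (14, 14)`, `λ = (2^14)`

The definitions of symmetric functions, of the scalar products, of Jack and Schur functions are
in `Pool.Agent.Helper487.Jack.Defs`.

Proof. Let `g_r` be given by `∑ g_r z^r = ∏ (1 - x_i z)^{-α}`. For `m = 14`,
`J̃_{(m,m)} = m! ∑_{r=0}^{2m} γ_r g_r g_{2m-r}` with
`γ_r = (-1)^i α(α-1)⋯(α-i+1) (α+i+1)⋯(α+m)`, `i = |r - m|`; this is proved by showing that the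
right side is unitriangular up to the scalar `α^{2m} ∏ (a(s)/α + l(s) + 1)` and orthogonal to all
lower monomial functions. Its scalar product with `s_{(2^m)} = e_m² - e_{m+1} e_{m-1}` is an
explicit polynomial in `α`. The polynomial identities in `α` are checked at `0, 1, …, 42`. The
resulting polynomial `B` is `z p(z)` where `p` violates the Laguerre inequality
`p'(x)² ≥ p(x) p''(x)` at `x = -1/5`, so it has a zero that is not real.
-/

/-- The indeterminate `α` of the field `ℚ(α)`. -/
noncomputable def al : RatFunc ℚ := RatFunc.X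

/-- The partition `μ = (14, 14)` of `28`. -/
def mu : Nat.Partition 28 where
  parts := Multiset.replicate 2 14
  parts_pos := fun {i} hi => by
    rw [Multiset.eq_of_mem_replicate hi]
    norm_num
  parts_sum := by simp

/-- The partition `λ = (2^14)` of `28`. -/
def lam : Nat.Partition 28 where
  parts := Multiset.replicate 14 2
  parts_pos := fun {i} hi => by
    rw [Multiset.eq_of_mem_replicate hi]
    norm_num
  parts_sum := by simp

/-- `J̃_μ^{(α)} = α^n J_μ^{(1/α)}`, where `P` is `P_μ^{(1/α)}`. -/
noncomputable def Jtilde {n : ℕ} (μ : n.Partition) (P : SymFun (RatFunc ℚ)) :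
    SymFun (RatFunc ℚ) :=
  al ^ n • hookNorm al⁻¹ μ • P

/-- The falling factorial `(α)_k = α (α - 1) ⋯ (α - k + 1)`. -/
noncomputable def alFall (k : ℕ) : RatFunc ℚ := ∏ j ∈ range k, (al - (j : RatFunc ℚ))

/-- `b_0, …, b_28` are the numbers with
`c_{μλ}(α) = ⟨J̃_μ^{(α)}, s_λ⟩ = ∑_{k=1}^{28} b_{28-k} (α)_k` (written with `j = 28 - k`) and
`b_28 = 0`, for `μ = (14, 14)`; here `P` is `P_μ^{(1/α)}` and `s` is `s_λ`. -/
def IsCoords (P s : SymFun (RatFunc ℚ)) (b : Fin 29 → ℚ) : Prop :=
  b (Fin.last 28) = 0 ∧
    pairing 1 (Jtilde mu P) s = ∑ j : Fin 28, (b j.castSucc : RatFunc ℚ) * alFall (28 - j)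

/-- The question asks whether `B_{μ,λ}(z) = ∑_j b_j z^{n-j}` has only real zeros; for `n = 28`,
`μ = (14, 14)`, `λ = (2^14)` it has a zero that is not real. -/
theorem result :
    -- the Jack functions with parameter `1/α` are well defined by `IsJack`
    (∀ (n : ℕ) (μ : n.Partition), ∃! P : SymFun (RatFunc ℚ), IsJack al⁻¹ μ P) ∧
    -- a mutually orthogonal unitriangular family consists of them
    (∀ (n : ℕ) (F : n.Partition → SymFun (RatFunc ℚ)), IsJackFamily al⁻¹ F →
      ∀ μ, IsJack al⁻¹ μ (F μ)) ∧
    -- the Schur function `s_λ` is well defined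
    (∃! s : SymFun (RatFunc ℚ), IsSchur lam s) ∧
    -- the answer
    ∀ P s : SymFun (RatFunc ℚ), IsJack al⁻¹ mu P → IsSchur lam s →
      (∃! b : Fin 29 → ℚ, IsCoords P s b) ∧
      ∀ b : Fin 29 → ℚ, IsCoords P s b →
        ∃ z : ℂ, z.im ≠ 0 ∧ ∑ j : Fin 29, (b j : ℂ) * z ^ (28 - (j : ℕ)) = 0 := by
  obtain ⟨φ, hφ⟩ := exists_embedding
  have hφ' : 0 < φ al⁻¹ := by
    rw [map_inv₀]
    exact inv_pos.2 hφ
  have hmu : mu.parts = Multiset.replicate 2 14 := rfl
  have hlam : lam.parts = Multiset.replicate 14 2 := rfl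
  refine ⟨fun n μ => existsUnique_isJack φ hφ' μ, fun n F hF μ => isJack_of_family hF μ, ?_, ?_⟩
  · refine ⟨_, (isSchur_iff (by norm_num) (by norm_num) hlam _).2 rfl, fun s hs => ?_⟩
    exact (isSchur_iff (by norm_num) (by norm_num) hlam _).1 hs
  · intro P s hP hs
    have hpair : pairing 1 (Jtilde mu P) s = Polynomial.aeval (RatFunc.X : RatFunc ℚ) (cP 14) :=
      pairing_Jtilde φ hφ (by norm_num) (by norm_num) hmu hlam hE14 hN14
        (aeval_vP_ne_zero 14) hP hs
    have hfall : ∀ k : ℕ, alFall (k + 1) = Polynomial.aeval (RatFunc.X : RatFunc ℚ) (fallP k) :=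
      fun k => (aeval_fallP k).symm
    have hcast : ∀ q : ℚ, (q : RatFunc ℚ) =
        Polynomial.aeval (RatFunc.X : RatFunc ℚ) (Polynomial.C q) := by
      intro q
      rw [Polynomial.aeval_C]
      exact (eq_ratCast (algebraMap ℚ (RatFunc ℚ)) q).symm
    have hiff : ∀ b : Fin 29 → ℚ, IsCoords P s b ↔
        b = fun j : Fin 29 => if (j : ℕ) < 28 then ((b14.getD (27 - (j : ℕ)) 0 : ℤ) : ℚ) else 0 := by
      intro b
      set b' : ℕ → ℚ := fun k => if h : k < 28 then b ⟨27 - k, by omega⟩ else 0 with hb'
      have e1 : ∑ j : Fin 28, (b j.castSucc : RatFunc ℚ) * alFall (28 - j) =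
          Polynomial.aeval (RatFunc.X : RatFunc ℚ)
            (∑ k ∈ range 28, Polynomial.C (b' k) * fallP k) := by
        have e2 : ∑ j : Fin 28, (b j.castSucc : RatFunc ℚ) * alFall (28 - j) =
            ∑ j ∈ range 28, ((b' (27 - j) : ℚ) : RatFunc ℚ) * alFall (28 - j) := by
          rw [Finset.sum_range]
          apply Finset.sum_congr rfl
          intro j _
          have : b' (27 - (j : ℕ)) = b j.castSucc := by
            rw [hb']
            have h1 : 27 - (j : ℕ) < 28 := by omega
            simp only [dif_pos h1]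
            congr 1
            apply Fin.ext
            simp only [Fin.val_castSucc]
            have := j.2
            omega
          rw [this]
        rw [e2, ← Finset.sum_range_reflect, map_sum]
        apply Finset.sum_congr rfl
        intro k hk
        rw [Finset.mem_range] at hk
        have h1 : 27 - (28 - 1 - k) = k := by omega
        have h2 : 28 - (28 - 1 - k) = k + 1 := by omega
        rw [map_mul, ← hcast, ← hfall, h1, h2]
      unfold IsCoords
      rw [hpair, e1, cP14_eq]
      constructor
      · rintro ⟨h0, h⟩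
        have h2 := aeval_X_injective h
        have h3 : ∑ k ∈ range 28, Polynomial.C (((b14.getD k 0 : ℤ) : ℚ) - b' k) * fallP k = 0 := by
          have : ∑ k ∈ range 28, Polynomial.C (((b14.getD k 0 : ℤ) : ℚ) - b' k) * fallP k =
              ∑ k ∈ range 28, Polynomial.C ((b14.getD k 0 : ℤ) : ℚ) * fallP k -
              ∑ k ∈ range 28, Polynomial.C (b' k) * fallP k := by
            rw [← Finset.sum_sub_distrib]
            apply Finset.sum_congr rfl
            intro k _
            rw [Polynomial.C_sub]
            ring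
          rw [this, h2, sub_self]
        have h4 := fallP_coords_unique h3
        funext j
        by_cases hj : (j : ℕ) < 28
        · have h5 := h4 (27 - (j : ℕ)) (by omega)
          have h6 : b' (27 - (j : ℕ)) = b j := by
            rw [hb']
            have h1 : 27 - (j : ℕ) < 28 := by omega
            simp only [dif_pos h1]
            congr 1
            apply Fin.ext
            change 27 - (27 - (j : ℕ)) = j
            omega
          rw [if_pos hj, ← h6]
          linarith
        · rw [if_neg hj, ← h0]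
          congr 1
          apply Fin.ext
          have := j.2
          change (j : ℕ) = 28
          omega
      · rintro rfl
        refine ⟨by simp, ?_⟩
        have h8 : ∑ k ∈ range 28, Polynomial.C ((b14.getD k 0 : ℤ) : ℚ) * fallP k =
            ∑ k ∈ range 28, Polynomial.C (b' k) * fallP k := by
          apply Finset.sum_congr rfl
          intro k hk
          rw [Finset.mem_range] at hk
          have h7 : b' k = ((b14.getD k 0 : ℤ) : ℚ) := by
            rw [hb']
            simp only [dif_pos hk]
            have h9 : 27 - k < 28 := by omega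
            have h10 : 27 - (27 - k) = k := by omega
            rw [if_pos h9, h10]
          rw [h7]
        rw [h8]
    refine ⟨⟨_, (hiff _).2 rfl, fun b hb => (hiff b).1 hb⟩, ?_⟩
    intro b hb
    rw [(hiff b).1 hb]
    obtain ⟨z, hz, hz0⟩ := nonreal14
    refine ⟨z, hz, ?_⟩
    have e3 : ∑ j : Fin 29, (((if (j : ℕ) < 28 then ((b14.getD (27 - (j : ℕ)) 0 : ℤ) : ℚ) else 0 :
        ℚ)) : ℂ) * z ^ (28 - (j : ℕ)) =
        z * ∑ k ∈ range 28, (((b14.getD k 0 : ℤ) : ℚ) : ℂ) * z ^ k := by
      rw [← Finset.sum_range (fun j => (((if j < 28 then ((b14.getD (27 - j) 0 : ℤ) : ℚ) else 0 :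
        ℚ)) : ℂ) * z ^ (28 - j)), Finset.sum_range_succ, if_neg (lt_irrefl _), Rat.cast_zero,
        zero_mul, add_zero, ← Finset.sum_range_reflect, Finset.mul_sum]
      apply Finset.sum_congr rfl
      intro k hk
      rw [Finset.mem_range] at hk
      have h1 : 27 - (28 - 1 - k) = k := by omega
      have h2 : 28 - (28 - 1 - k) = k + 1 := by omega
      have h3 : 28 - 1 - k < 28 := by omega
      rw [if_pos h3, h1, h2, pow_succ]
      ring
    rw [e3, hz0, mul_zero]

end Pool.Agent.Results.MP_19b511_co.NonRealZero
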